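import Pool.Agent.Y727.RP.Stm

set_option autoImplicit false

/-!
# Cauchy-Schwarz and Parseval on a circle
-/

namespace Pool.Agent.Y585.RP

open scoped Real
open Pool.Agent.Y727.RP MeasureTheory

theorem t_cs : S_CS := by
  intro g hg
  have hc1 : Continuous (fun θ => ‖g θ‖) := hg.norm
  have hc2 : Continuous (fun θ => ‖g θ‖ ^ 2) := hc1.pow 2
  have key : ∀ t : ℝ, 0 ≤ (∫ θ in (0 : ℝ)..(2 * π), ‖g θ‖ ^ 2)
      - 2 * t * (∫ θ in (0 : ℝ)..(2 * π), ‖g θ‖) + 2 * π * t ^ 2 := by
    intro t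
    have h0 : 0 ≤ ∫ θ in (0 : ℝ)..(2 * π), (‖g θ‖ - t) ^ 2 :=
      intervalIntegral.integral_nonneg (by positivity) (fun _ _ => sq_nonneg _)
    have h1 : ∫ θ in (0 : ℝ)..(2 * π), (‖g θ‖ - t) ^ 2
        = (∫ θ in (0 : ℝ)..(2 * π), ‖g θ‖ ^ 2)
      - 2 * t * (∫ θ in (0 : ℝ)..(2 * π), ‖g θ‖) + 2 * π * t ^ 2 := by
      have e : (fun θ => (‖g θ‖ - t) ^ 2) = fun θ => (‖g θ‖ ^ 2 - (2 * t) * ‖g θ‖) + t ^ 2 := by
        ext θ; ring
      rw [e, intervalIntegral.integral_add, intervalIntegral.integral_sub,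
        intervalIntegral.integral_const_mul, intervalIntegral.integral_const]
      · simp only [smul_eq_mul, sub_zero]
      · exact hc2.intervalIntegrable _ _
      · exact (continuous_const.mul hc1).intervalIntegrable _ _
      · exact (hc2.sub (continuous_const.mul hc1)).intervalIntegrable _ _
      · exact continuous_const.intervalIntegrable _ _
    rw [← h1]; exact h0
  have hpi : 0 < π := Real.pi_pos
  apply Real.le_sqrt_of_sq_le
  have hk := key ((∫ θ in (0 : ℝ)..(2 * π), ‖g θ‖) / (2 * π))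
  have hk2 := mul_nonneg (by positivity : (0 : ℝ) ≤ 2 * π) hk
  have e2 : 2 * π * ((∫ θ in (0 : ℝ)..(2 * π), ‖g θ‖ ^ 2)
      - 2 * ((∫ θ in (0 : ℝ)..(2 * π), ‖g θ‖) / (2 * π)) * (∫ θ in (0 : ℝ)..(2 * π), ‖g θ‖)
        + 2 * π * ((∫ θ in (0 : ℝ)..(2 * π), ‖g θ‖) / (2 * π)) ^ 2)
      = 2 * π * (∫ θ in (0 : ℝ)..(2 * π), ‖g θ‖ ^ 2)
        - (∫ θ in (0 : ℝ)..(2 * π), ‖g θ‖) ^ 2 := by
    field_simp
    ring
  rw [e2] at hk2
  linarith

/-- Integral of an exponential with integer frequency over a period. -/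
theorem int_exp (m n : ℕ) :
    ∫ θ in (0 : ℝ)..(2 * π), Complex.exp ((((m : ℂ) - (n : ℂ)) * Complex.I) * (θ : ℂ))
      = if m = n then (2 * π : ℂ) else 0 := by
  by_cases h : m = n
  · subst h
    simp
  · rw [if_neg h, integral_exp_mul_complex]
    · have e1 : ((m : ℂ) - (n : ℂ)) * Complex.I * ((2 * π : ℝ) : ℂ)
          = (((m : ℤ) - (n : ℤ) : ℤ) : ℂ) * (2 * π * Complex.I) := by
        push_cast; ring
      rw [e1, Complex.exp_int_mul_two_pi_mul_I]
      simp
    · refine mul_ne_zero ?_ Complex.I_ne_zero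
      rw [sub_ne_zero]
      exact_mod_cast h

theorem t_pars : S_PARS := by
  intro b ρ hρ hs
  -- the coefficients
  set c : ℕ → ℝ := fun n => b n * ρ ^ n with hc
  have hcabs : ∀ n, |c n| = |b n| * ρ ^ n := by
    intro n
    rw [hc]; simp only [abs_mul, abs_of_nonneg (pow_nonneg hρ n)]
  have hcs : Summable (fun n => |c n|) := by
    simpa only [hcabs] using hs
  -- the terms
  set f : ℕ → ℝ → ℂ := fun n θ => (c n : ℂ) * Complex.exp ((n : ℂ) * Complex.I * (θ : ℂ)) with hf
  have hfn : ∀ n θ, ‖f n θ‖ = |c n| := by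
    intro n θ
    have : ‖Complex.exp ((n : ℂ) * Complex.I * (θ : ℂ))‖ = 1 := by
      rw [Complex.norm_exp]
      simp
    simp only [hf, norm_mul, this, mul_one, Complex.norm_real, Real.norm_eq_abs]
  have hfc : ∀ n, Continuous (f n) := by
    intro n
    simp only [hf]
    fun_prop
  have hps : ∀ θ : ℝ, ps b (circleMap 0 ρ θ) = ∑' n, f n θ := by
    intro θ
    unfold ps
    apply tsum_congr
    intro n
    simp only [hf, hc, circleMap_zero]
    rw [mul_pow, ← Complex.exp_nat_mul]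
    push_cast
    rw [mul_assoc, show (n : ℂ) * Complex.I * (θ : ℂ) = (n : ℂ) * ((θ : ℂ) * Complex.I) by ring]
  have hcont : Continuous (fun θ : ℝ => ∑' n, f n θ) :=
    continuous_tsum hfc hcs (fun n θ => (hfn n θ).le)
  have hps' : (fun θ : ℝ => ps b (circleMap 0 ρ θ)) = fun θ => ∑' n, f n θ := by
    ext θ; exact hps θ
  have hsq : ∀ n, b n ^ 2 * ρ ^ (2 * n) = c n ^ 2 := by
    intro n
    simp only [hc]
    rw [mul_pow, ← pow_mul, mul_comm n 2]
  have hcsq : Summable (fun n => c n ^ 2) := by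
    have := (hcs.mul_of_nonneg hcs (fun n => abs_nonneg _) (fun n => abs_nonneg _))
    have h2 := this.comp_injective (i := fun n : ℕ => (n, n)) (fun x y h => by
      simpa using h)
    refine h2.congr ?_
    intro n
    simp only [Function.comp]
    rw [← abs_mul, ← sq, abs_of_nonneg (sq_nonneg _)]
  refine ⟨by rw [hps']; exact hcont, by simpa only [hsq] using hcsq, ?_⟩
  simp only [hps, hsq]
  -- double sum
  have hnf : ∀ θ : ℝ, Summable (fun n => ‖f n θ‖) := by
    intro θ; simpa only [hfn] using hcs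
  set F : ℕ × ℕ → ℝ → ℂ := fun p θ =>
    ((c p.1 * c p.2 : ℝ) : ℂ) * Complex.exp ((((p.1 : ℂ) - (p.2 : ℂ)) * Complex.I) * (θ : ℂ)) with hF
  have hFf : ∀ p θ, F p θ = f p.1 θ * (starRingEnd ℂ) (f p.2 θ) := by
    intro p θ
    simp only [hF, hf]
    rw [map_mul, Complex.conj_ofReal, ← Complex.exp_conj]
    simp only [map_mul, Complex.conj_I, Complex.conj_ofReal, map_natCast]
    rw [show (c p.1 : ℂ) * Complex.exp ((p.1 : ℂ) * Complex.I * (θ : ℂ)) *
      ((c p.2 : ℂ) * Complex.exp ((p.2 : ℂ) * -Complex.I * (θ : ℂ)))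
      = ((c p.1 : ℂ) * (c p.2 : ℂ)) * (Complex.exp ((p.1 : ℂ) * Complex.I * (θ : ℂ)) *
        Complex.exp ((p.2 : ℂ) * -Complex.I * (θ : ℂ))) by ring, ← Complex.exp_add]
    push_cast
    congr 2
    ring
  have hFn : ∀ p θ, ‖F p θ‖ = |c p.1| * |c p.2| := by
    intro p θ
    rw [hFf, norm_mul, RCLike.norm_conj, hfn, hfn]
  have hFsum : ∀ θ : ℝ, HasSum (fun p => F p θ) ((‖∑' n, f n θ‖ ^ 2 : ℝ) : ℂ) := by
    intro θ
    have h1 : ((‖∑' n, f n θ‖ ^ 2 : ℝ) : ℂ)
        = (∑' n, f n θ) * (∑' n, (starRingEnd ℂ) (f n θ)) := by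
      rw [← Complex.conj_tsum, Complex.mul_conj']
      push_cast
      rfl
    have hn2 : Summable (fun n => ‖(starRingEnd ℂ) (f n θ)‖) := by
      simpa only [RCLike.norm_conj] using hnf θ
    rw [h1, tsum_mul_tsum_of_summable_norm (hnf θ) hn2]
    have h3 := summable_mul_of_summable_norm (hnf θ) hn2
    have h4 := h3.hasSum
    simpa only [hFf] using h4
  have hbs : Summable (fun p : ℕ × ℕ => |c p.1| * |c p.2|) :=
    hcs.mul_of_nonneg hcs (fun n => abs_nonneg _) (fun n => abs_nonneg _)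
  have hint := intervalIntegral.hasSum_integral_of_dominated_convergence (μ := volume)
    (a := 0) (b := 2 * π) (F := F) (f := fun θ => ((‖∑' n, f n θ‖ ^ 2 : ℝ) : ℂ))
    (fun p _ => |c p.1| * |c p.2|)
    (fun p => by
      have : Continuous (F p) := by simp only [hF]; fun_prop
      exact this.aestronglyMeasurable)
    (fun p => Filter.Eventually.of_forall (fun t _ => (hFn p t).le))
    (Filter.Eventually.of_forall (fun t _ => hbs))
    (continuous_const.intervalIntegrable _ _)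
    (Filter.Eventually.of_forall (fun t _ => hFsum t))
  have hI : ∀ p : ℕ × ℕ, ∫ θ in (0 : ℝ)..(2 * π), F p θ
      = if p.1 = p.2 then ((2 * π * (c p.1 * c p.2) : ℝ) : ℂ) else 0 := by
    intro p
    simp only [hF]
    rw [intervalIntegral.integral_const_mul, int_exp]
    split_ifs with h
    · push_cast; ring
    · simp
  rw [intervalIntegral.integral_ofReal] at hint
  have h5 := hint.tsum_eq
  simp only [hI] at h5
  have h6 : ∑' p : ℕ × ℕ, (if p.1 = p.2 then ((2 * π * (c p.1 * c p.2) : ℝ) : ℂ) else 0)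
      = ∑' n : ℕ, ((2 * π * (c n * c n) : ℝ) : ℂ) := by
    have hinj : Function.Injective (fun n : ℕ => (n, n)) := fun x y h => by simpa using h
    rw [← hinj.tsum_eq]
    · apply tsum_congr
      intro n
      simp
    · intro p hp
      rw [Function.mem_support] at hp
      have : p.1 = p.2 := by
        by_contra hne
        exact hp (if_neg hne)
      exact ⟨p.1, by ext <;> simp [this]⟩
  rw [h6, ← Complex.ofReal_tsum] at h5
  have h7 := Complex.ofReal_injective h5
  rw [← h7, tsum_mul_left]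
  congr 1
  apply tsum_congr
  intro n
  ring

end Pool.Agent.Y585.RP
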